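import Mathlib
import Pool.Agent.V7H56.BG.Three
import Pool.Agent.Results.MP_544bd1_al.TwoGeneratorsTwelve
import Pool.Agent.Results.MP_544bd1_al.TwoGeneratorsMultiplesOfFive
import Pool.Agent.Results.MP_544bd1_al.ThreeGeneratorsFive

set_option autoImplicit false

/-!
# Exponents `n` and the number of finitely generated groups of exponent `q n`

If `B_{d,n}` is infinite, then for all `q ≥ 3` there are continuum many `(d+1)`-generator groups of
exponent `q n`; they are extensions of a group of class at most two and exponent dividing `q` by a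
group of exponent dividing `n`, and this gives a characterisation of the set `𝓛`.

Outline. We may assume that `q` is `4` or an odd prime. Let `p` be the prime divisor of `q`, let `G` be
an infinite group of exponent dividing `n` with `d` generators, and `R = 𝔽_p[G]`. The matrices with
rows `(1, a, w)`, `(0, g, b)`, `(0, 0, 1)` with `a`, `b`, `w` in `R` and `g` in `G` form a group which is
an extension of a group of class two and exponent `q` by `G`. The subgroup generated by `G` and the
matrix with `a = b = g = 1`, `w = 0` contains the central elements with `w = g - g⁻¹`, and a finitely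
generated infinite group has infinitely many `g` with `g ≠ g⁻¹`. Factoring out some of these
central elements gives continuum many quotients; at most countably many of them are isomorphic to a
given group.
-/

namespace Pool.Agent.Results.MP_544bd1_al.ContinuumManyGroupsH56

open scoped commutatorElement

universe u

/-- `n ∈ 𝓛`: every group satisfying `x ^ n = 1` is locally finite. -/
def InL (n : ℕ) : Prop := ∀ (G : Type u) [Group G], (∀ x : G, x ^ n = 1) →
  ∀ S : Set G, S.Finite → Finite (Subgroup.closure S)

/-- The free Burnside group `B_{m,n}`: the free group of rank `m` modulo the normal closure of all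
`n`-th powers. -/
abbrev B (m n : ℕ) : Type :=
  FreeGroup (Fin m) ⧸ Subgroup.normalClosure (Set.range fun w : FreeGroup (Fin m) => w ^ n)

/-- `G` is a `d`-generator group. -/
def Generated (d : ℕ) (G : Type u) [Group G] : Prop :=
  ∃ s : Fin d → G, Subgroup.closure (Set.range s) = ⊤

/-- `Γ` has a normal subgroup `N` with exponent dividing `q` and nilpotent of class at most two such
that `Γ / N` has exponent dividing `n`. (Then `Γ` has exponent dividing `q n`.) -/
def Extension (q n : ℕ) (Γ : Type u) [Group Γ] : Prop :=
  ∃ N : Subgroup Γ, N.Normal ∧ (∀ x ∈ N, x ^ q = 1) ∧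
    (∀ x ∈ N, ∀ y ∈ N, ∀ z ∈ N, ⁅x, y⁆ * z = z * ⁅x, y⁆) ∧ ∀ g : Γ, g ^ n ∈ N

/-- Up to isomorphism there are at most countably many groups with the property `P`. -/
def CountablyMany (P : (G : Type) → [Group G] → Prop) : Prop :=
  ∃ (Γ : ℕ → Type) (_ : ∀ i, Group (Γ i)), ∀ (G : Type) [Group G], P G →
    ∃ i, Nonempty (G ≃* Γ i)

/-- There is a family, indexed by the Cantor space, of pairwise non-isomorphic groups with the
property `P`. -/
def ContinuumMany (P : (G : Type) → [Group G] → Prop) : Prop :=
  ∃ (Γ : (ℕ → Bool) → Type) (_ : ∀ i, Group (Γ i)), (∀ i, P (Γ i)) ∧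
    ∀ i j, Nonempty (Γ i ≃* Γ j) → i = j

/-- Let `q ≥ 3`.

(1) If `B_{d,n}` is infinite, then there are continuum many pairwise non-isomorphic
`(d+1)`-generator groups which are extensions of a group of class at most two and exponent dividing
`q` by a group of exponent dividing `n`.

(2) `n ∈ 𝓛` if and only if for each `d` there are only countably many `d`-generator groups of this
kind.

(3) If there are only countably many `(d+1)`-generator groups of exponent dividing `q n`, then
`B_{d,n}` is finite. If this holds for all `d`, then `n ∈ 𝓛`.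

(4) If `k = 3` and `n = 10, 12, 15, 20`, or if `k = 4` and `n = 5`, then `n ∈ 𝓛` if and only if there
are only countably many `k`-generator groups as in (1), and this is the case if there are only
countably many `k`-generator groups of exponent dividing `q n`. -/
theorem result (q : ℕ) (hq : 3 ≤ q) :
    (∀ d n : ℕ, Infinite (B d n) →
      ContinuumMany fun Γ _ => Extension q n Γ ∧ Generated (d + 1) Γ) ∧
    (∀ n : ℕ, InL.{u} n ↔ ∀ d, CountablyMany fun Γ _ => Extension q n Γ ∧ Generated d Γ) ∧
    (∀ n : ℕ, (∀ d, (CountablyMany fun G _ => (∀ x : G, x ^ (q * n) = 1) ∧ Generated (d + 1) G) →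
        Finite (B d n)) ∧
      ((∀ d, CountablyMany fun G _ => (∀ x : G, x ^ (q * n) = 1) ∧ Generated d G) →
        InL.{u} n)) ∧
    (∀ k n : ℕ, (k = 3 ∧ (n = 10 ∨ n = 12 ∨ n = 15 ∨ n = 20)) ∨ (k = 4 ∧ n = 5) →
      (InL.{u} n ↔ CountablyMany fun Γ _ => Extension q n Γ ∧ Generated k Γ) ∧
      ((CountablyMany fun G _ => (∀ x : G, x ^ (q * n) = 1) ∧ Generated k G) → InL.{u} n)) := by
  have hfix : ∀ d n : ℕ, (Finite (B d n) → InL.{u} n) →
      (InL.{u} n ↔ CountablyMany fun Γ _ => Extension q n Γ ∧ Generated (d + 1) Γ) ∧
      ((CountablyMany fun G _ => (∀ x : G, x ^ (q * n) = 1) ∧ Generated (d + 1) G) →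
        InL.{u} n) := fun d n h => V7H56.BG.fixed3.{u} hq h
  refine ⟨fun d n h => V7H56.BG.cont3 hq h, fun n => V7H56.BG.inL3.{u} hq,
    fun n => ⟨fun d h => V7H56.BG.mult3 hq h, fun h => (V7H56.BG.inL_iff_B.{u} n).2 fun d =>
      V7H56.BG.mult3 hq (h (d + 1))⟩, ?_⟩
  rintro k n (⟨rfl, hn⟩ | ⟨rfl, rfl⟩)
  · refine hfix 2 n ?_
    rcases hn with rfl | rfl | rfl | rfl
    · exact (TwoGeneratorsMultiplesOfFive.result.{u}.2.2.1 10 (Or.inl rfl)).2
    · exact (TwoGeneratorsTwelve.result.{u}.1).2
    · exact (TwoGeneratorsMultiplesOfFive.result.{u}.2.2.1 15 (Or.inr (Or.inl rfl))).2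
    · exact (TwoGeneratorsMultiplesOfFive.result.{u}.2.2.1 20 (Or.inr (Or.inr rfl))).2
  · exact hfix 3 5 (ThreeGeneratorsFive.result.{u}.2.2.1 5 (Or.inl rfl)).2

end Pool.Agent.Results.MP_544bd1_al.ContinuumManyGroupsH56
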