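import Mathlib
import Pool.Agent.V7H85.BU.G
import Pool.Agent.Results.MP_544bd1_al.TwoGeneratorsMultiplesOfFive
import Pool.Agent.Results.MP_544bd1_al.ThreeGeneratorsFive

/-!
# A finite free Burnside group decides local finiteness unless its Sylow subgroups are huge

Outline.  Let `G` be a group without nontrivial abelian normal subgroups and `x ≠ 1` in `G`.  Then
`x` does not commute with some conjugate `x ^ h`.  So there are `x_0, x_1, x_2, ...`, all nontrivial,
with `x_(i+1) = [x_i, x_i ^ h_i] = [x_i, [x_i, h_i]⁻¹]`; here `x_k` lies in the `k`-th derived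
subgroup and in the term with number `2 ^ (k+1) - 1` of the lower central series of the `k + 1`
generator group `⟨x_0, h_0, ..., h_(k-1)⟩`.  Hence a group whose `k + 1` generator subgroups have
derived length at most `k` or class at most `2 ^ (k+1) - 2` is hyperabelian, and periodic
hyperabelian groups are locally finite (a maximal normal locally finite subgroup, Schmidt).

Let `Q` be a finite group of exponent `m` with generators `s_1, ..., s_r`, and `H` a group of
exponent `n`.  The `(r - 1) |Q| + 1` edges of the Cayley graph of `Q` outside a spanning tree can be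
labelled with arbitrary elements of `H`, the tree edges with `1`; the labels are the base components
of `r` elements of the wreath product of `H` and `Q`, of exponent `m n`, and the group `K` generated
by these is such that the intersection of `K` and the base group is mapped by the evaluation at `1`
onto a group containing all the labels (`schreier`).  So, for `K = (r-1)|B_{r,m}|+1`, the group
`B_{K,n}` is a section of `B_{r,mn}`; if `n` is a power of a prime `p` and `B_{r,mn}` is finite, it
is a section of a Sylow `p`-subgroup.  Both facts together give the criteria below, and the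
earlier results `TwoGeneratorsMultiplesOfFive` and `ThreeGeneratorsFive` are used to pass from the
prime powers dividing `n` to `n`.
-/

set_option autoImplicit false

namespace Pool.Agent.Results.MP_544bd1_al.DerivedLengthH85

open Pool.Agent.V7H85

universe u

/-- `n ∈ 𝓛`: every group satisfying `x ^ n = 1` is locally finite. -/
def InL (n : ℕ) : Prop := ∀ (G : Type u) [Group G], (∀ x : G, x ^ n = 1) →
  ∀ S : Set G, S.Finite → Finite (Subgroup.closure S)

/-- The free Burnside group `B_{m,n}`: the free group of rank `m` modulo the normal closure of all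
`n`-th powers. -/
abbrev B (m n : ℕ) : Type :=
  FreeGroup (Fin m) ⧸ Subgroup.normalClosure (Set.range fun w : FreeGroup (Fin m) => w ^ n)

/-- The group `G` is soluble of derived length at most `k`, or nilpotent of class at most
`2 ^ (k + 1) - 2`. -/
def Small (k : ℕ) (G : Type*) [Group G] : Prop :=
  derivedSeries G k = ⊥ ∨ (⊤ : Subgroup G).lowerCentralSeries (2 ^ (k + 1) - 2) = ⊥

/-- Hyperabelian groups: every nontrivial quotient of `G` has a nontrivial abelian normal
subgroup. -/
def Hyperabelian (G : Type*) [Group G] : Prop :=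
  ∀ (N : Subgroup G) [N.Normal], N ≠ ⊤ → ∃ A : Subgroup (G ⧸ N), A.Normal ∧ A ≠ ⊥ ∧
    ∀ x ∈ A, ∀ y ∈ A, x * y = y * x

/-- The exponents treated in part (4): `n` is not divisible by `2 ^ m * (2 ^ m - 1) ^ 2` for any
`m ≥ 2`, and there are at most two odd primes whose square divides `n`. -/
def Admissible (n : ℕ) : Prop :=
  (∀ m : ℕ, 2 ≤ m → ¬ 2 ^ m * (2 ^ m - 1) ^ 2 ∣ n) ∧
    ∃ p q : ℕ, ∀ r : ℕ, r.Prime → r ≠ 2 → r ^ 2 ∣ n → r = p ∨ r = q

/-- the power of `p` exactly dividing `n` -/
def part (p n : ℕ) : ℕ := p ^ n.factorization p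

/-- `H` is a quotient of a subgroup of the subgroup `P` of `G`. -/
def SectionOf {G : Type*} [Group G] (P : Subgroup G) (H : Type*) [Group H] : Prop :=
  ∃ T : Subgroup G, T ≤ P ∧ ∃ f : T →* H, Function.Surjective f

/-- `k = (r - 1) |B_{r,m}|`, so that `B_{k+1,n}` is a section of `B_{r,mn}`. -/
noncomputable def rk (r m : ℕ) : ℕ := (r - 1) * Nat.card (B r m)

/-- For `q`, the power of `p` exactly dividing `n`, and `k = (r - 1) |B_{r,n/q}|`: `q > 5`, the group
`B_{k+1,q}` is finite, and neither `B_{k+1,q}` nor any Sylow `p`-subgroup of `B_{r,n}` has derived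
length at most `k` or class at most `2 ^ (k + 1) - 2`. -/
def Huge (r n p : ℕ) : Prop :=
  5 < part p n ∧ Finite (B (rk r (n / part p n) + 1) (part p n)) ∧
    ¬ Small (rk r (n / part p n)) (B (rk r (n / part p n) + 1) (part p n)) ∧
    ∀ P : Sylow p (B r n), ¬ Small (rk r (n / part p n)) (P : Subgroup (B r n))

/-- part (1) -/
def PartOne : Prop :=
  ∀ (k : ℕ) (G : Type u) [Group G],
    (∀ a : Fin (k + 1) → G, Small k (Subgroup.closure (Set.range a))) →
    Hyperabelian G ∧ ((∀ x : G, IsOfFinOrder x) →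
      ∀ S : Set G, S.Finite → Finite (Subgroup.closure S))

/-- part (3) -/
def PartThree : Prop :=
  ∀ r m n : ℕ, 1 ≤ r →
    (Finite (B r m) → SectionOf (⊤ : Subgroup (B r (m * n))) (B (rk r m + 1) n)) ∧
    (∀ p e : ℕ, p.Prime → n = p ^ e → Finite (B r (m * n)) →
      ∃ P : Sylow p (B r (m * n)), SectionOf (P : Subgroup (B r (m * n))) (B (rk r m + 1) n)) ∧
    (1 ≤ n → Small (rk r m) (B r (m * n)) → InL.{u} n)

/-- part (4) -/
def PartFour : Prop :=
  ∀ r n : ℕ, 1 ≤ n → (r = 2 ∧ n ≠ 5 ∧ Admissible n ∨ r = 3) →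
    (n.primeFactors.card ≤ 2 ∨ Group.IsSolvable (B r n)) → Finite (B r n) →
    InL.{u} n ∨ ∃ p : ℕ, p.Prime ∧ Huge r n p

theorem inL_of_locFin {n : ℕ} (h : H32BU.LocFin n) : InL.{u} n :=
  (H32BU.inL_iff H32BU.x_LFD n).2 h

theorem inL_of_dvd {n d : ℕ} (h : d ∣ n) (hL : InL.{u} n) : InL.{u} d := by
  obtain ⟨c, rfl⟩ := h
  exact fun G _ hG => hL G fun x => by rw [pow_mul, hG, one_pow]

theorem inL_of_small {n k : ℕ} (hn : 1 ≤ n) (h : Small k (B (k + 1) n)) : InL.{u} n :=
  inL_of_locFin (BU.locFin_of_small hn ((BU.small_top k).2 h))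

theorem section_finite {B' H : Type*} [Group B'] [Group H] (h : Finite B') (T : Subgroup B')
    (f : T →* H) (hf : Function.Surjective f) : Finite H :=
  Finite.of_surjective f hf

theorem dichotomy (r n : ℕ) (hr : 1 ≤ r) (hn : 1 ≤ n) (hfin : Finite (B r n))
    (T : (∀ p k : ℕ, p.Prime → p ^ k ∣ n → 5 < p ^ k → InL.{u} (p ^ k)) → InL.{u} n) :
    InL.{u} n ∨ ∃ p : ℕ, p.Prime ∧ Huge r n p := by
  by_contra hcon
  unfold Huge at hcon
  push Not at hcon
  obtain ⟨hnL, hcon⟩ := hcon
  apply hnL
  refine T fun p k hp hk h5 => ?_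
  have h1 : p ^ k ∣ part p n :=
    pow_dvd_pow p ((hp.pow_dvd_iff_le_factorization (by omega)).1 hk)
  have hpos : 0 < part p n := pow_pos hp.pos _
  have h2 : 5 < part p n := lt_of_lt_of_le h5 (Nat.le_of_dvd hpos h1)
  have h3 : n / part p n * part p n = n := Nat.div_mul_cancel (Nat.ordProj_dvd n p)
  refine inL_of_dvd h1 ?_
  have : Fact p.Prime := ⟨hp⟩
  have h4 : ∃ (P : Sylow p (B r n)) (T : Subgroup (B r n)), T ≤ (P : Subgroup (B r n)) ∧
      ∃ f : T →* B (rk r (n / part p n) + 1) (part p n), Function.Surjective f := by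
    have h5 := BU.section_bu (p := p) (e := n.factorization p) (m := n / part p n) (r := r) hp hr
    change Finite (B r (n / part p n * part p n)) → ∃ (P : Sylow p (B r (n / part p n * part p n)))
      (T : Subgroup (B r (n / part p n * part p n))),
      T ≤ (P : Subgroup (B r (n / part p n * part p n))) ∧
      ∃ f : T →* B (rk r (n / part p n) + 1) (part p n), Function.Surjective f at h5
    rw [h3] at h5
    exact h5 hfin
  obtain ⟨P, T, hT, f, hf⟩ := h4
  by_contra hq
  have h5 : ¬ Small (rk r (n / part p n)) (B (rk r (n / part p n) + 1) (part p n)) :=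
    fun h => hq (inL_of_small hpos h)
  obtain ⟨P', hP'⟩ := hcon p hp h2 (section_finite hfin T f hf) h5
  have h6 : BU.Small (rk r (n / part p n)) (P' : Subgroup (B r n)) := (BU.small_iff _ _).2 hP'
  have h7 := (BU.small_sylow P' P h6).mono hT
  exact h5 ((BU.small_top _).1 (BU.small_of_section T f hf h7))

theorem part_four : PartFour.{u} := by
  rintro r n hn (⟨rfl, hn5, hA⟩ | rfl) hs hfin
  · exact dichotomy 2 n (by norm_num) hn hfin fun h =>
      (TwoGeneratorsMultiplesOfFive.result.{u}.1 n hn hn5 hA hs).2 ⟨h, hfin⟩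
  · exact dichotomy 3 n (by norm_num) hn hfin fun h =>
      (ThreeGeneratorsFive.result.{u}.2.2.2 n hn h hs).2 hfin

theorem admissible_mul {p q : ℕ} (hp : p.Prime) (hq : q.Prime) (hpq : p < q) :
    Admissible (p * q) := by
  have hsq : Squarefree (p * q) := by
    rw [Nat.squarefree_mul ((Nat.coprime_primes hp hq).2 hpq.ne)]
    exact ⟨hp.prime.squarefree, hq.prime.squarefree⟩
  have h1 : ∀ r : ℕ, r.Prime → ¬ r ^ 2 ∣ p * q := by
    intro r hr h
    rw [sq] at h
    exact hr.one_lt.ne' (Nat.isUnit_iff.1 (hsq r h))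
  refine ⟨fun m hm h => h1 2 Nat.prime_two ?_, 0, 0, fun r hr _ h => absurd h (h1 r hr)⟩
  exact (pow_dvd_pow 2 hm).trans ((dvd_mul_right _ _).trans h)

theorem two_primes (p q : ℕ) (hp : p.Prime) (hq : q.Prime) (hpq : p < q)
    (h : derivedSeries (B 2 (p * q)) (p ^ 2) = ⊥) : InL.{u} (p * q) := by
  have hq1 : InL.{u} q := inL_of_locFin (BU.locFin_sq hp.one_le hq.one_le h)
  have hp1 : InL.{u} p := by
    refine inL_of_locFin (BU.locFin_sq hq.one_le hp.one_le ?_)
    rw [mul_comm, eq_bot_iff]
    have h1 : derivedSeries (B 2 (p * q)) (q ^ 2) ≤ derivedSeries (B 2 (p * q)) (p ^ 2) :=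
      derivedSeries_antitone _ (Nat.pow_le_pow_left hpq.le 2)
    rw [h] at h1
    exact h1
  have hpos : 1 ≤ p * q := Nat.mul_pos hp.pos hq.pos
  have hfin : Finite (B 2 (p * q)) :=
    BU.finite_of_solvable (BU.fin_ord hpos (BU.bu_exp 2 (p * q))) (BU.bgen 2 (p * q))
      (BU.closure_bgen 2 (p * q)) h
  have hpf : (p * q).primeFactors = {p, q} := by
    rw [Nat.primeFactors_mul hp.ne_zero hq.ne_zero, hp.primeFactors, hq.primeFactors]
    rfl
  have hn5 : p * q ≠ 5 := by
    intro h5
    have h6 := Nat.le_of_dvd (by norm_num) (h5 ▸ dvd_mul_right p q : p ∣ 5)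
    have h7 := hp.two_le
    have h8 := hq.two_le
    have h9 : (p = 1 ∧ q = 5) ∨ (p = 5 ∧ q = 1) := by
      interval_cases p <;> omega
    omega
  refine (TwoGeneratorsMultiplesOfFive.result.{u}.1 (p * q) hpos hn5 (admissible_mul hp hq hpq)
    (Or.inl ?_)).2 ⟨fun l k hl hk h5 => ?_, hfin⟩
  · rw [hpf]
    exact Finset.card_le_two
  · have h1 : l ∣ p * q → (l = p ∨ l = q) := by
      intro h2
      rcases hl.dvd_mul.1 h2 with h3 | h3
      · exact Or.inl ((Nat.prime_dvd_prime_iff_eq hl hp).1 h3)
      · exact Or.inr ((Nat.prime_dvd_prime_iff_eq hl hq).1 h3)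
    have hk0 : k ≠ 0 := by
      rintro rfl
      norm_num at h5
    have hk1 : k = 1 := by
      by_contra hne
      have h2 : l ^ 2 ∣ p * q := (pow_dvd_pow l (by omega)).trans hk
      have hsq : Squarefree (p * q) := by
        rw [Nat.squarefree_mul ((Nat.coprime_primes hp hq).2 hpq.ne)]
        exact ⟨hp.prime.squarefree, hq.prime.squarefree⟩
      rw [sq] at h2
      exact hl.one_lt.ne' (Nat.isUnit_iff.1 (hsq l h2))
    subst hk1
    rw [pow_one] at hk ⊢
    rcases h1 hk with rfl | rfl
    · exact hp1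
    · exact hq1

/-- (1) Let every subgroup of `G` generated by `k + 1` elements have derived length at most `k` or
class at most `2 ^ (k + 1) - 2`. Then `G` is hyperabelian, and locally finite if it is periodic.
(2) Let `n ≥ 1`. If `B_{k+1,n}` has derived length at most `k` or class at most `2 ^ (k + 1) - 2` for
some `k`, then `n ∈ 𝓛`. (3) Let `r ≥ 1` and `K = (r - 1) |B_{r,m}| + 1`. If `B_{r,m}` is finite, then
`B_{K,n}` is a quotient of a subgroup of `B_{r,mn}`. If `n` is a power of a prime `p` and `B_{r,mn}`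
is finite, this subgroup can be taken in a Sylow `p`-subgroup. If `n ≥ 1` and `B_{r,mn}` has derived
length less than `K` or class at most `2 ^ K - 2`, then `n ∈ 𝓛`. (4) Let `n ≥ 1`, and `r = 3`, or
`r = 2`, `n ≠ 5` and `n` admissible; let `n` have at most two prime divisors or `B_{r,n}` be soluble,
and let `B_{r,n}` be finite. Then `n ∈ 𝓛`, or, for some prime `p` with `q > 5`, where `q` is the power
of `p` exactly dividing `n`, and `k = (r - 1) |B_{r,n/q}|`, the group `B_{k+1,q}` is finite, and
neither `B_{k+1,q}` nor the Sylow `p`-subgroups of `B_{r,n}` have derived length at most `k` or class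
at most `2 ^ (k + 1) - 2`. (5) Let `p < q` be primes. If `B_{2,pq}` is soluble of derived length at
most `p ^ 2`, then `p q ∈ 𝓛`. -/
theorem result :
    PartOne.{u} ∧
    (∀ n k : ℕ, 1 ≤ n → Small k (B (k + 1) n) → InL.{u} n) ∧
    PartThree.{u} ∧
    PartFour.{u} ∧
    (∀ p q : ℕ, p.Prime → q.Prime → p < q →
      derivedSeries (B 2 (p * q)) (p ^ 2) = ⊥ → InL.{u} (p * q)) := by
  refine ⟨fun k G _ h => ?_, fun n k hn h => inL_of_small hn h,
    fun r m n hr => ⟨fun h => ?_, ?_, fun hn h => ?_⟩, part_four, two_primes⟩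
  · have h1 : ∀ a : Fin (k + 1) → G, BU.Small k (Subgroup.closure (Set.range a)) :=
      fun a => (BU.small_iff _ _).2 (h a)
    exact ⟨fun N _ hN => BU.hyp_of_small h1 N hN, fun ht S hS => BU.finite_of_small ht h1 S hS⟩
  · obtain ⟨T, f, hf⟩ := BU.section_any (n := n) hr h
    exact ⟨T, le_top, f, hf⟩
  · rintro p e hp rfl h
    exact BU.section_bu hp hr h
  · exact inL_of_locFin (BU.locFin_small hn hr ((BU.small_top _).2 h))

end Pool.Agent.Results.MP_544bd1_al.DerivedLengthH85
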