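import Mathlib
import Pool.Agent.V7H56.BG.Var
import Pool.Agent.Results.MP_544bd1_al.TwoGeneratorsTwelve
import Pool.Agent.Results.MP_544bd1_al.TwoGeneratorsMultiplesOfFive
import Pool.Agent.Results.MP_544bd1_al.ThreeGeneratorsFive

set_option autoImplicit false

/-!
# Exponents with finitely many `d`-generator groups

A variety of groups is locally finite if and only if it contains only finitely many `d`-generator
groups, up to isomorphism, for each `d`, and if and only if its finitely generated members satisfy
the minimal condition for normal subgroups. In particular this characterises the set `𝓛` of the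
exponents `n` for which all groups of exponent `n` are locally finite.

Outline. Let `G` be an infinite `d`-generator group in a variety. If there is no least subgroup of
finite index, then `G` has a strictly descending sequence of normal subgroups of finite index. If
`R` is the least subgroup of finite index, let `M` be a normal subgroup of `G` which is maximal
subject to `R ≰ M`. Then `H = G / M` has a least nontrivial normal subgroup `C = R M / M`, which has
no proper subgroups of finite index; it is infinite and (by Nakayama's lemma) not abelian. For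
distinct elements `y_1, y_2, …` of `C` let `D_k` be the subgroup of `H ^ k` generated by the diagonal
and `(y_1, …, y_k)`, and `D` the corresponding subgroup of `H ^ ℕ`. As two nontrivial elements of `H`
do not commute with all conjugates of each other, commutators of the elements
`(y_1, y_2, …) y_i⁻¹` and their conjugates give elements of `D` which are trivial in finitely many
given coordinates and not trivial in another one; so `D` has a strictly descending sequence of
normal subgroups, and `D_k` contains `C ^ k`. The group `D_k` has exactly `k` minimal normal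
subgroups, so these groups are pairwise non-isomorphic.
-/

namespace Pool.Agent.Results.MP_544bd1_al.FinitelyManyGroupsH56

universe u

/-- `n ∈ 𝓛`: every group satisfying `x ^ n = 1` is locally finite. -/
def InL (n : ℕ) : Prop := ∀ (G : Type u) [Group G], (∀ x : G, x ^ n = 1) →
  ∀ S : Set G, S.Finite → Finite (Subgroup.closure S)

/-- The free Burnside group `B_{m,n}`: the free group of rank `m` modulo the normal closure of all
`n`-th powers. -/
abbrev B (m n : ℕ) : Type :=
  FreeGroup (Fin m) ⧸ Subgroup.normalClosure (Set.range fun w : FreeGroup (Fin m) => w ^ n)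

/-- `G` is a `d`-generator group. -/
def Generated (d : ℕ) (G : Type u) [Group G] : Prop :=
  ∃ s : Fin d → G, Subgroup.closure (Set.range s) = ⊤

/-- `G` belongs to the variety of groups defined by the set `W` of words: each word of `W` takes only
the value `1` in `G`. -/
def InVariety (W : Set (FreeGroup ℕ)) (G : Type u) [Group G] : Prop :=
  ∀ w ∈ W, ∀ f : ℕ → G, FreeGroup.lift f w = 1

/-- All groups of the variety are locally finite. -/
def LocallyFinite (W : Set (FreeGroup ℕ)) : Prop :=
  ∀ (G : Type) [Group G], InVariety W G → ∀ S : Set G, S.Finite → Finite (Subgroup.closure S)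

/-- The minimal condition for normal subgroups: there is no strictly descending infinite sequence of
normal subgroups. -/
def MinNormal (G : Type u) [Group G] : Prop :=
  ¬ ∃ N : ℕ → Subgroup G, (∀ k, (N k).Normal) ∧ StrictAnti N

/-- Up to isomorphism there are only finitely many groups with the property `P`. -/
def FinitelyMany (P : (G : Type) → [Group G] → Prop) : Prop :=
  ∃ (m : ℕ) (Γ : Fin m → Type) (_ : ∀ i, Group (Γ i)), ∀ (G : Type) [Group G], P G →
    ∃ i, Nonempty (G ≃* Γ i)

/-- There are infinitely many pairwise non-isomorphic groups with the property `P`. -/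
def InfinitelyMany (P : (G : Type) → [Group G] → Prop) : Prop :=
  ∃ (Γ : ℕ → Type) (_ : ∀ i, Group (Γ i)), (∀ i, P (Γ i)) ∧
    ∀ i j, Nonempty (Γ i ≃* Γ j) → i = j

/-- (1) Let `W` be a set of words. If the variety of groups defined by `W` contains an infinite
`d`-generator group, then it contains infinitely many pairwise non-isomorphic `(d+1)`-generator
groups and a `(d+1)`-generator group that does not satisfy the minimal condition for normal
subgroups. Hence it is locally finite if and only if for each `d` it contains only finitely many
`d`-generator groups, and if and only if its finitely generated groups satisfy the minimal condition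
for normal subgroups.

(2) In particular the following are equivalent: `n ∈ 𝓛`; for each `d` there are only finitely many
`d`-generator groups of exponent dividing `n`; for each `d` the group `B_{d,n}` satisfies the minimal
condition for normal subgroups. If `B_{d,n}` is infinite, then there are infinitely many pairwise
non-isomorphic `(d+1)`-generator groups of exponent dividing `n`, and `B_{d+1,n}` does not satisfy
the minimal condition for normal subgroups.

(3) For `n = 10, 12, 15, 20` the following are equivalent: `n ∈ 𝓛`; there are only finitely many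
3-generator groups of exponent dividing `n`; `B_{3,n}` satisfies the minimal condition for normal
subgroups. For `n = 5` the same holds with 4 generators. -/
theorem result :
    (∀ W : Set (FreeGroup ℕ),
      (∀ (d : ℕ) (G : Type) [Group G], InVariety W G → Generated d G → Infinite G →
        (InfinitelyMany fun Γ _ => InVariety W Γ ∧ Generated (d + 1) Γ) ∧
        ∃ (Γ : Type) (_ : Group Γ), InVariety W Γ ∧ Generated (d + 1) Γ ∧ ¬ MinNormal Γ) ∧
      (LocallyFinite W ↔ ∀ d, FinitelyMany fun G _ => InVariety W G ∧ Generated d G) ∧
      (LocallyFinite W ↔ ∀ (G : Type) [Group G], InVariety W G → Group.FG G → MinNormal G)) ∧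
    (∀ n : ℕ, (InL.{u} n ↔ ∀ d, FinitelyMany fun G _ => (∀ x : G, x ^ n = 1) ∧ Generated d G) ∧
      (InL.{u} n ↔ ∀ d, MinNormal (B d n)) ∧
      ∀ d, Infinite (B d n) →
        (InfinitelyMany fun Γ _ => (∀ x : Γ, x ^ n = 1) ∧ Generated (d + 1) Γ) ∧
        ¬ MinNormal (B (d + 1) n)) ∧
    (∀ k n : ℕ, (k = 3 ∧ (n = 10 ∨ n = 12 ∨ n = 15 ∨ n = 20)) ∨ (k = 4 ∧ n = 5) →
      (InL.{u} n ↔ FinitelyMany fun G _ => (∀ x : G, x ^ n = 1) ∧ Generated k G) ∧
      (InL.{u} n ↔ MinNormal (B k n))) := by
  have hfix : ∀ d n : ℕ, (Finite (B d n) → InL.{u} n) →
      (InL.{u} n ↔ FinitelyMany fun G _ => (∀ x : G, x ^ n = 1) ∧ Generated (d + 1) G) ∧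
      (InL.{u} n ↔ MinNormal (B (d + 1) n)) :=
    fun d n h => ⟨(V7H56.BG.fixed.{u} h).1, (V7H56.BG.fixed.{u} h).2.1⟩
  refine ⟨fun W => ⟨fun d G _ h1 h2 h3 => ?_, V7H56.BG.LF_iff_fin W, V7H56.BG.LF_iff_min W⟩,
    fun n => ⟨(V7H56.BG.all.{u} n).1, (V7H56.BG.all.{u} n).2.1, fun d h =>
      ⟨(V7H56.BG.B_infinite h).1, not_not.2 (V7H56.BG.B_infinite h).2.1⟩⟩, ?_⟩
  · obtain ⟨h4, Γ, i, h5, h6, h7⟩ := V7H56.BG.main G h1 h2 h3
    exact ⟨h4, Γ, i, h5, h6, not_not.2 h7⟩
  · rintro k n (⟨rfl, hn⟩ | ⟨rfl, rfl⟩)
    · refine hfix 2 n ?_
      rcases hn with rfl | rfl | rfl | rfl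
      · exact (TwoGeneratorsMultiplesOfFive.result.{u}.2.2.1 10 (Or.inl rfl)).2
      · exact (TwoGeneratorsTwelve.result.{u}.1).2
      · exact (TwoGeneratorsMultiplesOfFive.result.{u}.2.2.1 15 (Or.inr (Or.inl rfl))).2
      · exact (TwoGeneratorsMultiplesOfFive.result.{u}.2.2.1 20 (Or.inr (Or.inr rfl))).2
    · exact hfix 3 5 (ThreeGeneratorsFive.result.{u}.2.2.1 5 (Or.inl rfl)).2

end Pool.Agent.Results.MP_544bd1_al.FinitelyManyGroupsH56
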