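import Pool.Agent.V7H15.Inv.Single
import Pool.Agent.H15R2.Burn

/-!
# Elements of odd order whose commutators with their conjugates have order at most two

Let `x` be an element of odd order of a group `G` such that `[x, x ^ g] ^ 2 = 1` for all `g`.  It is
shown that the normal closure of `x` is locally finite; nothing is assumed about the orders of other
elements or the finiteness of two-generator subgroups.

Outline (library `Pool.Agent.V7H15.Inv`).  Let `C` be the class of `x`, and for `a` in `C` let `E(a)`
be the set of the `u` with `u ^ 2 = 1` and `a u` in `C`; it contains `[a, b]` for `b` in `C`.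

1. (`Law1.all`) The conjugates `u_i` of `u` in `E(a)` under `a ^ i` commute.  For `i = 1` this is the
hypothesis for `a` and `a u`; if it holds up to `k`, then `a u_k u_0` is conjugate to `a`, so that
`u_k u_0` commutes with `u_(k+1) u_1`.  Hence `[a ^ i, b ^ j] ^ 2 = 1` for all `b` in `C`.

2. (`core`, `E_comm`) If `x` has prime order `p`, then `E(a)` is commutative.  Let `u, w` be in `E(a)`,
with conjugates `u_j`, `w_i`.  As `a ^ m u_j` is conjugate to `a ^ m`, step 1 gives
`(u_j w_i u_l w_k) ^ 2 = 1` for `j ≠ l`, `i ≠ k`, so `u_j` conjugates `w_k u_l w_i` to `w_i u_l w_k`.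
The product of the `p - 1` elements `u_j`, `j ≠ l`, is `u_l`, so `u_l` commutes with `w_k u_l w_i`.
It follows that `c = [w_i, u_l]` has order at most two and does not depend on `i`, and
`w_0 ... w_(p-1) = 1` gives `c ^ p = 1`.

3. Hence `E(a)` is an elementary abelian group and `E(a u) = E(a)`, and so
`E(a) ^ b = E(a ^ b) = E(a [a, b]) = E(a)` for `b` in `C`.  So the commutator subgroup of the normal
closure is a product of normal elementary abelian `2`-subgroups.

4. For composite orders one uses induction, with the quotient by the normal closure of a power of `x`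
of prime order.
-/

set_option autoImplicit false

namespace Pool.Agent.Results.MP_544bd1_al.InvolutoryCommutatorsH15

open Pool.Agent.V7H15.Inv

open scoped commutatorElement

universe u

/-- `n ∈ 𝓛`: every group satisfying `x ^ n = 1` is locally finite. -/
def InL (n : ℕ) : Prop := ∀ (G : Type u) [Group G], (∀ x : G, x ^ n = 1) →
  ∀ S : Set G, S.Finite → Finite (Subgroup.closure S)

/-- The subgroup `N` is locally finite. -/
def LocallyFinite {G : Type u} [Group G] (N : Subgroup G) : Prop :=
  ∀ S : Set G, S.Finite → S ⊆ N → Finite (Subgroup.closure S)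

/-- The commutators of `x` and its conjugates have order at most two. -/
def Involutory {G : Type u} [Group G] (x : G) : Prop :=
  ∀ g : G, ⁅x, g⁻¹ * x * g⁆ ^ 2 = 1

theorem part3 (q m : ℕ) (hq : InL.{u} q) (hm : Odd m) (G : Type u) [Group G]
    (hG : ∀ g : G, g ^ (q * m) = 1) (hS : ∀ x : G, x ^ m = 1 → Involutory x) (S : Set G)
    (hSf : S.Finite) : Finite (Subgroup.closure S) := by
  refine main_exp hm ?_ G hG (fun x hx => Small_of (hS x hx)) S hSf (Set.subset_univ _)
  intro Q _ hQ S hSf _
  exact hq Q hQ S hSf

theorem L4 : InL.{u} 4 := by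
  intro G _ h S hS
  have hfg := closure_fg hS
  obtain ⟨T, hT⟩ := Group.fg_def.mp hfg
  have h1 := H15.Burn.fin4 (G := Subgroup.closure S) (fun g => by
    ext
    exact_mod_cast h g) T
  rw [hT] at h1
  exact Set.finite_univ_iff.mp (by simpa using h1)

theorem inL_of_dvd {n d : ℕ} (h : d ∣ n) (hL : InL.{u} n) : InL.{u} d := by
  obtain ⟨c, rfl⟩ := h
  exact fun G _ hG => hL G fun x => by rw [pow_mul, hG, one_pow]

theorem split8 {n : ℕ} (h : ¬ 8 ∣ n) : ∃ q m : ℕ, n = q * m ∧ q ∣ 4 ∧ Odd m := by
  rcases Nat.even_or_odd n with h1 | h1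
  · obtain ⟨a, ha⟩ := h1.two_dvd
    rcases Nat.even_or_odd a with h2 | h2
    · obtain ⟨b, hb⟩ := h2.two_dvd
      rcases Nat.even_or_odd b with h3 | h3
      · obtain ⟨c, hc⟩ := h3.two_dvd
        exact absurd ⟨c, by omega⟩ h
      · exact ⟨4, b, by omega, dvd_rfl, h3⟩
    · exact ⟨2, a, ha, by norm_num, h2⟩
  · exact ⟨1, n, (one_mul n).symm, one_dvd _, h1⟩

/-- (1) Let `x` be an element of a group `G` with `x ^ n = 1`, `n` odd, such that the commutators of
`x` and its conjugates have order at most two. Then the normal closure of `x` is locally finite.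
(2) If `n` is an odd prime, the commutator subgroup of the normal closure `N` of `x` is a `2`-group,
and it is generated by elementary abelian `2`-subgroups which are normalised by `N`.
(3) Let `q ∈ 𝓛`, let `m` be odd and let `G` be a group of exponent dividing `q m` in which the
commutators of each element `x` with `x ^ m = 1` and its conjugates have order at most two. Then `G`
is locally finite.
(4) Let `n` be not divisible by `8`. A group of exponent dividing `n` in which the commutators of
each element of odd order and its conjugates have order at most two is locally finite. -/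
theorem result :
    (∀ (G : Type u) [Group G] (x : G) (n : ℕ), Odd n → x ^ n = 1 → Involutory x →
      LocallyFinite (Subgroup.normalClosure {x})) ∧
    (∀ (G : Type u) [Group G] (x : G) (p : ℕ), p.Prime → p ≠ 2 → x ^ p = 1 → Involutory x →
      (∀ y ∈ ⁅Subgroup.normalClosure {x}, Subgroup.normalClosure {x}⁆, ∃ k : ℕ, y ^ 2 ^ k = 1) ∧
      ∃ A : Set (Subgroup G), (∀ E ∈ A, (∀ u ∈ E, u ^ 2 = 1) ∧
          ∀ t ∈ Subgroup.normalClosure {x}, ∀ u ∈ E, t⁻¹ * u * t ∈ E) ∧
        sSup A = ⁅Subgroup.normalClosure {x}, Subgroup.normalClosure {x}⁆) ∧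
    (∀ q m : ℕ, InL.{u} q → Odd m → ∀ (G : Type u) [Group G], (∀ g : G, g ^ (q * m) = 1) →
      (∀ x : G, x ^ m = 1 → Involutory x) → ∀ S : Set G, S.Finite →
        Finite (Subgroup.closure S)) ∧
    (∀ n : ℕ, ¬ 8 ∣ n → ∀ (G : Type u) [Group G], (∀ g : G, g ^ n = 1) →
      (∀ x : G, Odd (orderOf x) → Involutory x) → ∀ S : Set G, S.Finite →
        Finite (Subgroup.closure S)) := by
  refine ⟨fun G _ x n hn hx hI => main_odd n G x hn hx (Small_of hI),
    fun G _ x p hp hp2 hx hI => (main_prime hp hp2 hx (Small_of hI)).2,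
    fun q m hq hm G _ hG hS S hSf => part3 q m hq hm G hG hS S hSf, ?_⟩
  intro n hn G _ hG hS S hSf
  obtain ⟨q, m, rfl, hq, hm⟩ := split8 hn
  refine part3 q m (inL_of_dvd hq L4) hm G hG (fun x hx => hS x ?_) S hSf
  exact hm.of_dvd_nat (orderOf_dvd_of_pow_eq_one hx)

end Pool.Agent.Results.MP_544bd1_al.InvolutoryCommutatorsH15
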